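import Pool.Agent.FT.Final

/-!
# Derived length of nilpotent groups with a fixed-point-free automorphism of finite order

All orders `n` and all primes. The proof is in `Pool/Agent/FT` (see `FT/Final.lean`).
-/

set_option autoImplicit false

namespace Pool.Agent.Results.MP_2cd00b_al.AllOrders

/-- For every `n ≥ 1` there is a bound `d` for the derived length of all finite nilpotent groups
with a fixed-point-free automorphism `φ` such that `φ ^ n = 1`. -/
theorem result (n : ℕ) (hn : 0 < n) : ∃ d : ℕ, ∀ (G : Type) [Group G] [Finite G]
    [Group.IsNilpotent G] (φ : MulAut G), φ ^ n = 1 → (∀ g : G, φ g = g → g = 1) →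
      derivedSeries G d = ⊥ :=
  Pool.Agent.FT.nilp n hn fun b hb _ => Pool.Agent.FT.main b hb

end Pool.Agent.Results.MP_2cd00b_al.AllOrders
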