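import Mathlib
import Pool.Agent.RegA.NilB

set_option autoImplicit false

namespace Pool.Agent.Results.MP_2cd00b_al.SplitPrimes

universe u

/-- Let `n ≥ 1` and let `G` be a finite nilpotent group with an automorphism `φ` such that
`φ ^ n = 1` (in particular: of order `n`) and `φ` fixes only the identity. If every prime divisor
`p` of the order of `G` is congruent to `1` modulo the largest divisor `n / p ^ v_p(n)` of `n`
which is prime to `p` (in particular if `p ≡ 1` modulo `n`), then `G` has derived length at most
`(3 ^ (n - 1) - 1) / 2`. -/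
theorem result (n : ℕ) (hn : 0 < n) (G : Type u) [Group G] [Finite G] [Group.IsNilpotent G]
    (φ : MulAut G) (hφ : φ ^ n = 1) (hfix : ∀ g : G, φ g = g → g = 1)
    (hp : ∀ p : ℕ, p.Prime → p ∣ Nat.card G → p ≡ 1 [MOD n / p ^ n.factorization p]) :
    derivedSeries G ((3 ^ (n - 1) - 1) / 2) = ⊥ :=
  Pool.Agent.RegA.nilp' n hn G φ hφ hfix hp

end Pool.Agent.Results.MP_2cd00b_al.SplitPrimes
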